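import Mathlib
import Pool.Agent.Y725.TR.Base

/-!
# Terao's conjecture fails in every dimension `l ≥ 3`, for irreducible arrangements

The frozen negation `S12632` is proved in the starting files by two arrangements of `27` planes in `K ^ 3`,
`K` an algebraic closure of `F_11`. Here: for **every** field `K` of characteristic `11` that contains
a square root of `-1` (that is, `K ⊇ F_121`) and **every** `l ≥ 3` there are two essential and **irreducible**
(not products) central arrangements of `2 l + 21` hyperplanes in `K ^ l` with isomorphic
intersection lattices, one of them free, the other one not free, its module of logarithmic vector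
fields is not even projective. If `K` is infinite and `l ≥ 4`, this holds for arrangements
of `n` hyperplanes for every `n ≥ 2 l + 21`.

The pair in dimension three is the one of the starting files. A pair in `K ^ l` is extended to
`K ^ (l+1)` by the hyperplanes `y + s α₀ = 0`, `s` in a finite set of at least two scalars, `α₀` a fixed
form of the arrangement. The lattice of the extension is determined by the lattice of the arrangement,
the extension is irreducible, it is free if the arrangement is free, and projectivity
of its module of logarithmic vector fields descends.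
-/

set_option autoImplicit false

namespace Pool.Agent.Results.MP_feb289_co.AllDimensions

variable {K : Type} [Field K] {n l : ℕ}

/-- The rows of `A` are nonzero linear forms with distinct kernels. -/
def Distinct (A : Matrix (Fin n) (Fin l) K) : Prop :=
  (∀ i j : Fin n, i ≠ j → ∀ c : K, A i ≠ c • A j) ∧ ∀ i : Fin n, A i ≠ 0

/-- The forms span the dual space: the intersection of all hyperplanes is the origin. -/
def Essential (A : Matrix (Fin n) (Fin l) K) : Prop := Submodule.span K (Set.range A) = ⊤

/-- The arrangement is not a product of two smaller ones: there is no partition of the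
hyperplanes into two nonempty parts whose forms span independent subspaces. -/
def Irreducible (A : Matrix (Fin n) (Fin l) K) : Prop :=
  ∀ I : Set (Fin n), I.Nonempty → Iᶜ.Nonempty →
    ¬ Disjoint (Submodule.span K (A '' I)) (Submodule.span K (A '' Iᶜ))

/-- The set of all intersections of hyperplanes of the arrangement (as in the frozen statement). -/
abbrev Lattice (A : Matrix (Fin n) (Fin l) K) : Set (Submodule K (Fin l → K)) :=
  Set.range (fun s : Finset (Fin n) =>
    ⨅ i ∈ s, LinearMap.ker ((LinearMap.proj i : (Fin n → K) →ₗ[K] K).comp
      (Matrix.mulVecLin A)))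

/-- The module of logarithmic vector fields (as in the frozen statement). -/
noncomputable abbrev D (A : Matrix (Fin n) (Fin l) K) :
    Submodule (MvPolynomial (Fin l) K) (Fin l → MvPolynomial (Fin l) K) :=
  Submodule.comap (Matrix.mulVecLin (A.map MvPolynomial.C))
    (Submodule.pi Set.univ (fun i : Fin n =>
      (Ideal.span {(Matrix.mulVec (A.map MvPolynomial.C)
          (fun j => (MvPolynomial.X j : MvPolynomial (Fin l) K))) i} :
        Submodule (MvPolynomial (Fin l) K) (MvPolynomial (Fin l) K))))

/-- **Terao's conjecture fails in every dimension `l ≥ 3`, for irreducible arrangements.** -/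
theorem result (K : Type) [Field K] [CharP K 11] (hK : ∃ i : K, i * i = -1) (l n : ℕ)
    (hl : 3 ≤ l) (hn : n = 2 * l + 21 ∨ (Infinite K ∧ 4 ≤ l ∧ 2 * l + 21 ≤ n)) :
    ∃ A B : Matrix (Fin n) (Fin l) K,
      Distinct A ∧ Distinct B ∧ Essential A ∧ Essential B ∧ Irreducible A ∧ Irreducible B ∧
      Nonempty (↥(Lattice A) ≃o ↥(Lattice B)) ∧
      Module.Free (MvPolynomial (Fin l) K) ↥(D A) ∧
      ¬ Module.Free (MvPolynomial (Fin l) K) ↥(D B) ∧
      ¬ Module.Projective (MvPolynomial (Fin l) K) ↥(D B) := by
  obtain ⟨ι, _, _, A, B, hc, hg⟩ := Pool.Agent.Y725.TR.ex_all hK hl hn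
  have hg' := Pool.Agent.Y725.TR.good_reindex hg (Fintype.equivFinOfCardEq hc).symm
  refine ⟨_, _, hg'.simA, hg'.simB, hg'.essA, hg'.essB, hg'.irrA, hg'.irrB,
    Pool.Agent.Y725.TR.iso_of_dep hg'.dep, hg'.free, fun hf => hg'.nproj ?_, hg'.nproj⟩
  exact Module.Projective.of_free

end Pool.Agent.Results.MP_feb289_co.AllDimensions
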